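import Pool.Agent.Helper29_TDG.Stmts

/-!
# Total domination game, module XE: consequences of the absence of extraction
-/

set_option autoImplicit false

namespace Pool.Agent.TDG.H47

open Finset Helper77.TDG

/-- Consequences of the absence of extraction. -/
theorem xe (hMO : MOStmt) (hDZ : DZStmt) : XEStmt := by
  intro V X _ _ _ N Hv U A h
  refine ⟨?_, ?_⟩
  · intro Z hZ hne
    have h1 := hMO V X N Hv U Z h.hW hZ
    have h2 := h.hE Z hZ hne
    unfold ph
    linarith
  · intro B hB hne
    have hBU : B ⊆ U \ Hv := hB.trans h.hA.1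
    obtain ⟨P, hPA, hP, h1⟩ := hDZ V X N Hv U A B h.hW h.hA hBU
    refine ⟨P, ?_, hPA, ?_⟩
    · intro x hx
      exact hP (mem_inter.2 ⟨hx, hB hx⟩)
    · have h2 := h.hE B hBU hne
      have h3 : MM N Hv U = F2 N Hv U + Gam N Hv U := rfl
      unfold ph
      linarith

end Pool.Agent.TDG.H47
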